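import Pool.Agent.PLG.Stmts

set_option autoImplicit false

/-!
# Squad PLG, row SEP
-/

namespace Pool.Agent.PLG.H23

open Module

theorem sep (hPKV : PkvStmt) : SepStmt := by
  intro E _ _ f V r δ k hD hr hδ hsep hk
  haveI : FiniteDimensional ℚ (bs f V r) :=
    FiniteDimensional.span_of_finite ℚ (Finset.finite_toSet _)
  have h1 := hPKV E f (bs f V r) inferInstance (bl f V r) δ r hδ hr
    (fun x hx => ⟨Submodule.subset_span hx, ((mem_bl hD).1 hx).2⟩)
    (fun x hx y hy hxy => hsep (x - y)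
      (V.sub_mem ((mem_bl hD).1 hx).1 ((mem_bl hD).1 hy).1) (sub_ne_zero.2 hxy))
  have h2 : (1 : ℝ) ≤ 1 + 2 * r / δ := by
    have : 0 ≤ 2 * r / δ := by positivity
    linarith
  exact h1.trans (pow_le_pow_right₀ h2 hk)

end Pool.Agent.PLG.H23
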